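import Pool.Agent.Strip051.Box.C2
import Pool.Agent.Strip051.Box.S30
import Pool.Agent.Strip051.LB.Fc.F2

/-! # LINE tight chart ChA00V1_pm_123a -/

namespace Pool.Agent.Strip051.LB.ChA00V1_pm_123a

open Pool.Agent.Strip051.Box Pool.Agent.Strip051.Box2

open Pool.Agent.Strip051.LB.Fc Pool.Agent.Strip051.LB.Fc.F2 Pool.Agent.Strip051.LB.Fn Pool.Agent.Strip051.LB.Fn.F2

/-- coordinates of a point of the box -/
def In (b : Bx) (E : Pt) (x1 x2 : ℝ) : Prop :=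
  (S : ℝ) * x1 = ((b.p1 : ℝ) - b.n1) + b.q1 * E.e1 ∧ (S : ℝ) * x2 = ((b.p2 : ℝ) - b.n2) + b.q2 * E.e2

variable {b : Bx} {E : Pt} {x1 x2 : ℝ}

def t0 (b : Bx) : TM := X1 b
noncomputable def v0 (x1 _x2 : ℝ) : ℝ := x1
theorem h0 (h : In b E x1 x2) : Enc S E (t0 b) (v0 x1 x2) := enc_X1 h.1

def t1 (b : Bx) : TM := X2 b
noncomputable def v1 (_x1 x2 : ℝ) : ℝ := x2
theorem h1 (h : In b E x1 x2) : Enc S E (t1 b) (v1 x1 x2) := enc_X2 h.2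

def t2 (_b : Bx) : TM := tconst 1859775393 0 1
noncomputable def v2 (_x1 _x2 : ℝ) : ℝ := Real.sqrt ((3 : ℕ) : ℝ)
theorem h2 (_h : In b E x1 x2) : Enc S E (t2 b) (v2 x1 x2) := enc_sqrtn E (by decide) (by decide)

def t3 (b : Bx) : TM := tscale 1 2 (t2 b)
noncomputable def v3 (x1 x2 : ℝ) : ℝ := ((1 : ℕ) : ℝ) / ((2 : ℕ) : ℝ) * v2 x1 x2
theorem h3 (h : In b E x1 x2) : Enc S E (t3 b) (v3 x1 x2) := enc_scale 1 (by norm_num) (h2 h)

def t4 (b : Bx) : TM := tsq S (t0 b)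
noncomputable def v4 (x1 x2 : ℝ) : ℝ := (v0 x1 x2) ^ 2
theorem h4 (h : In b E x1 x2) : Enc S E (t4 b) (v4 x1 x2) := enc_sq hS (h0 h)

def t5 (_b : Bx) : TM := tconst (Nat.mul 1 S) 0 0
noncomputable def v5 (_x1 _x2 : ℝ) : ℝ := ((1 : ℕ) : ℝ)
theorem h5 (_h : In b E x1 x2) : Enc S E (t5 b) (v5 x1 x2) := enc_nc E 1

def t6 (b : Bx) : TM := tsub (t5 b) (t4 b)
noncomputable def v6 (x1 x2 : ℝ) : ℝ := v5 x1 x2 - v4 x1 x2
theorem h6 (h : In b E x1 x2) : Enc S E (t6 b) (v6 x1 x2) := enc_sub (h5 h) (h4 h)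

def t7 (b : Bx) : TM := tsqrt S (t6 b)
noncomputable def v7 (x1 x2 : ℝ) : ℝ := Real.sqrt (v6 x1 x2)
theorem h7 (h : In b E x1 x2) : Enc S E (t7 b) (v7 x1 x2) := enc_sqrt hS (h6 h)

def t9 (_b : Bx) : TM := tconst (Nat.div (Nat.mul 1 S) 2) 0 1
noncomputable def v9 (_x1 _x2 : ℝ) : ℝ := ((1 : ℕ) : ℝ) / ((2 : ℕ) : ℝ)
theorem h9 (_h : In b E x1 x2) : Enc S E (t9 b) (v9 x1 x2) := enc_rat E 1 (by norm_num)

def t10 (b : Bx) : TM := tscale 1 2 (t7 b)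
noncomputable def v10 (x1 x2 : ℝ) : ℝ := ((1 : ℕ) : ℝ) / ((2 : ℕ) : ℝ) * v7 x1 x2
theorem h10 (h : In b E x1 x2) : Enc S E (t10 b) (v10 x1 x2) := enc_scale 1 (by norm_num) (h7 h)

def t11 (b : Bx) : TM := tmul S (t0 b) (t3 b)
noncomputable def v11 (x1 x2 : ℝ) : ℝ := v0 x1 x2 * v3 x1 x2
theorem h11 (h : In b E x1 x2) : Enc S E (t11 b) (v11 x1 x2) := enc_mul hS (h0 h) (h3 h)

def t12 (b : Bx) : TM := tsub (t10 b) (t11 b)
noncomputable def v12 (x1 x2 : ℝ) : ℝ := v10 x1 x2 - v11 x1 x2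
theorem h12 (h : In b E x1 x2) : Enc S E (t12 b) (v12 x1 x2) := enc_sub (h10 h) (h11 h)

def t13 (b : Bx) : TM := tscale 1 2 (t0 b)
noncomputable def v13 (x1 x2 : ℝ) : ℝ := ((1 : ℕ) : ℝ) / ((2 : ℕ) : ℝ) * v0 x1 x2
theorem h13 (h : In b E x1 x2) : Enc S E (t13 b) (v13 x1 x2) := enc_scale 1 (by norm_num) (h0 h)

def t14 (b : Bx) : TM := tmul S (t7 b) (t3 b)
noncomputable def v14 (x1 x2 : ℝ) : ℝ := v7 x1 x2 * v3 x1 x2
theorem h14 (h : In b E x1 x2) : Enc S E (t14 b) (v14 x1 x2) := enc_mul hS (h7 h) (h3 h)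

def t15 (b : Bx) : TM := tadd (t13 b) (t14 b)
noncomputable def v15 (x1 x2 : ℝ) : ℝ := v13 x1 x2 + v14 x1 x2
theorem h15 (h : In b E x1 x2) : Enc S E (t15 b) (v15 x1 x2) := enc_add (h13 h) (h14 h)

def t20 (b : Bx) : TM := tsub (t1 b) (t12 b)
noncomputable def v20 (x1 x2 : ℝ) : ℝ := v1 x1 x2 - v12 x1 x2
theorem h20 (h : In b E x1 x2) : Enc S E (t20 b) (v20 x1 x2) := enc_sub (h1 h) (h12 h)

def t21 (b : Bx) : TM := tsq S (t1 b)
noncomputable def v21 (x1 x2 : ℝ) : ℝ := (v1 x1 x2) ^ 2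
theorem h21 (h : In b E x1 x2) : Enc S E (t21 b) (v21 x1 x2) := enc_sq hS (h1 h)

def t22 (b : Bx) : TM := tsub (t5 b) (t21 b)
noncomputable def v22 (x1 x2 : ℝ) : ℝ := v5 x1 x2 - v21 x1 x2
theorem h22 (h : In b E x1 x2) : Enc S E (t22 b) (v22 x1 x2) := enc_sub (h5 h) (h21 h)

def t23 (b : Bx) : TM := tsqrt S (t22 b)
noncomputable def v23 (x1 x2 : ℝ) : ℝ := Real.sqrt (v22 x1 x2)
theorem h23 (h : In b E x1 x2) : Enc S E (t23 b) (v23 x1 x2) := enc_sqrt hS (h22 h)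

def t24 (b : Bx) : TM := tadd (t7 b) (t1 b)
noncomputable def v24 (x1 x2 : ℝ) : ℝ := v7 x1 x2 + v1 x1 x2
theorem h24 (h : In b E x1 x2) : Enc S E (t24 b) (v24 x1 x2) := enc_add (h7 h) (h1 h)

def t25 (b : Bx) : TM := tadd (t0 b) (t23 b)
noncomputable def v25 (x1 x2 : ℝ) : ℝ := v0 x1 x2 + v23 x1 x2
theorem h25 (h : In b E x1 x2) : Enc S E (t25 b) (v25 x1 x2) := enc_add (h0 h) (h23 h)

def t26 (b : Bx) : TM := tsub (t12 b) (t1 b)
noncomputable def v26 (x1 x2 : ℝ) : ℝ := v12 x1 x2 - v1 x1 x2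
theorem h26 (h : In b E x1 x2) : Enc S E (t26 b) (v26 x1 x2) := enc_sub (h12 h) (h1 h)

def t27 (b : Bx) : TM := tnat 2 (t7 b)
noncomputable def v27 (x1 x2 : ℝ) : ℝ := ((2 : ℕ) : ℝ) * v7 x1 x2
theorem h27 (h : In b E x1 x2) : Enc S E (t27 b) (v27 x1 x2) := enc_nat 2 (h7 h)

def t28 (b : Bx) : TM := tadd (t5 b) (t27 b)
noncomputable def v28 (x1 x2 : ℝ) : ℝ := v5 x1 x2 + v27 x1 x2
theorem h28 (h : In b E x1 x2) : Enc S E (t28 b) (v28 x1 x2) := enc_add (h5 h) (h27 h)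

def t29 (b : Bx) : TM := tmul S (t2 b) (t0 b)
noncomputable def v29 (x1 x2 : ℝ) : ℝ := v2 x1 x2 * v0 x1 x2
theorem h29 (h : In b E x1 x2) : Enc S E (t29 b) (v29 x1 x2) := enc_mul hS (h2 h) (h0 h)

def t30 (b : Bx) : TM := tsub (t29 b) (t7 b)
noncomputable def v30 (x1 x2 : ℝ) : ℝ := v29 x1 x2 - v7 x1 x2
theorem h30 (h : In b E x1 x2) : Enc S E (t30 b) (v30 x1 x2) := enc_sub (h29 h) (h7 h)

def t31 (b : Bx) : TM := tmul S (t28 b) (t30 b)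
noncomputable def v31 (x1 x2 : ℝ) : ℝ := v28 x1 x2 * v30 x1 x2
theorem h31 (h : In b E x1 x2) : Enc S E (t31 b) (v31 x1 x2) := enc_mul hS (h28 h) (h30 h)

def t32 (b : Bx) : TM := tadd (t5 b) (t29 b)
noncomputable def v32 (x1 x2 : ℝ) : ℝ := v5 x1 x2 + v29 x1 x2
theorem h32 (h : In b E x1 x2) : Enc S E (t32 b) (v32 x1 x2) := enc_add (h5 h) (h29 h)

def t33 (b : Bx) : TM := tsub (t32 b) (t7 b)
noncomputable def v33 (x1 x2 : ℝ) : ℝ := v32 x1 x2 - v7 x1 x2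
theorem h33 (h : In b E x1 x2) : Enc S E (t33 b) (v33 x1 x2) := enc_sub (h32 h) (h7 h)

def t34 (b : Bx) : TM := tnat 2 (t33 b)
noncomputable def v34 (x1 x2 : ℝ) : ℝ := ((2 : ℕ) : ℝ) * v33 x1 x2
theorem h34 (h : In b E x1 x2) : Enc S E (t34 b) (v34 x1 x2) := enc_nat 2 (h33 h)

def t35 (b : Bx) : TM := tinv S (t34 b)
noncomputable def v35 (x1 x2 : ℝ) : ℝ := (v34 x1 x2)⁻¹
theorem h35 (h : In b E x1 x2) : Enc S E (t35 b) (v35 x1 x2) := enc_inv hS (h34 h)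

def t36 (b : Bx) : TM := tmul S (t31 b) (t35 b)
noncomputable def v36 (x1 x2 : ℝ) : ℝ := v31 x1 x2 * v35 x1 x2
theorem h36 (h : In b E x1 x2) : Enc S E (t36 b) (v36 x1 x2) := enc_mul hS (h31 h) (h35 h)

def t38 (b : Bx) : TM := tsq S (t24 b)
noncomputable def v38 (x1 x2 : ℝ) : ℝ := (v24 x1 x2) ^ 2
theorem h38 (h : In b E x1 x2) : Enc S E (t38 b) (v38 x1 x2) := enc_sq hS (h24 h)

def t39 (_b : Bx) : TM := tconst (Nat.mul 3 S) 0 0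
noncomputable def v39 (_x1 _x2 : ℝ) : ℝ := ((3 : ℕ) : ℝ)
theorem h39 (_h : In b E x1 x2) : Enc S E (t39 b) (v39 x1 x2) := enc_nc E 3

def t40 (b : Bx) : TM := tsub (t39 b) (t38 b)
noncomputable def v40 (x1 x2 : ℝ) : ℝ := v39 x1 x2 - v38 x1 x2
theorem h40 (h : In b E x1 x2) : Enc S E (t40 b) (v40 x1 x2) := enc_sub (h39 h) (h38 h)

def t41 (b : Bx) : TM := tsq S (t25 b)
noncomputable def v41 (x1 x2 : ℝ) : ℝ := (v25 x1 x2) ^ 2
theorem h41 (h : In b E x1 x2) : Enc S E (t41 b) (v41 x1 x2) := enc_sq hS (h25 h)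

def t45 (b : Bx) : TM := tadd (t7 b) (t12 b)
noncomputable def v45 (x1 x2 : ℝ) : ℝ := v7 x1 x2 + v12 x1 x2
theorem h45 (h : In b E x1 x2) : Enc S E (t45 b) (v45 x1 x2) := enc_add (h7 h) (h12 h)

def t47 (b : Bx) : TM := tadd (t24 b) (t45 b)
noncomputable def v47 (x1 x2 : ℝ) : ℝ := v24 x1 x2 + v45 x1 x2
theorem h47 (h : In b E x1 x2) : Enc S E (t47 b) (v47 x1 x2) := enc_add (h24 h) (h45 h)

def t51 (b : Bx) : TM := tadd (t1 b) (t12 b)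
noncomputable def v51 (x1 x2 : ℝ) : ℝ := v1 x1 x2 + v12 x1 x2
theorem h51 (h : In b E x1 x2) : Enc S E (t51 b) (v51 x1 x2) := enc_add (h1 h) (h12 h)

def t54 (b : Bx) : TM := tadd (t23 b) (t15 b)
noncomputable def v54 (x1 x2 : ℝ) : ℝ := v23 x1 x2 + v15 x1 x2
theorem h54 (h : In b E x1 x2) : Enc S E (t54 b) (v54 x1 x2) := enc_add (h23 h) (h15 h)

def t55 (b : Bx) : TM := tinv S (t54 b)
noncomputable def v55 (x1 x2 : ℝ) : ℝ := (v54 x1 x2)⁻¹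
theorem h55 (h : In b E x1 x2) : Enc S E (t55 b) (v55 x1 x2) := enc_inv hS (h54 h)

def t56 (b : Bx) : TM := tmul S (t51 b) (t55 b)
noncomputable def v56 (x1 x2 : ℝ) : ℝ := v51 x1 x2 * v55 x1 x2
theorem h56 (h : In b E x1 x2) : Enc S E (t56 b) (v56 x1 x2) := enc_mul hS (h51 h) (h55 h)

def t57 (b : Bx) : TM := tadd (t0 b) (t15 b)
noncomputable def v57 (x1 x2 : ℝ) : ℝ := v0 x1 x2 + v15 x1 x2
theorem h57 (h : In b E x1 x2) : Enc S E (t57 b) (v57 x1 x2) := enc_add (h0 h) (h15 h)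

def t59 (b : Bx) : TM := tadd (t25 b) (t57 b)
noncomputable def v59 (x1 x2 : ℝ) : ℝ := v25 x1 x2 + v57 x1 x2
theorem h59 (h : In b E x1 x2) : Enc S E (t59 b) (v59 x1 x2) := enc_add (h25 h) (h57 h)

def t60 (b : Bx) : TM := tmul S (t56 b) (t59 b)
noncomputable def v60 (x1 x2 : ℝ) : ℝ := v56 x1 x2 * v59 x1 x2
theorem h60 (h : In b E x1 x2) : Enc S E (t60 b) (v60 x1 x2) := enc_mul hS (h56 h) (h59 h)

def t62 (b : Bx) : TM := tsub (t47 b) (t60 b)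
noncomputable def v62 (x1 x2 : ℝ) : ℝ := v47 x1 x2 - v60 x1 x2
theorem h62 (h : In b E x1 x2) : Enc S E (t62 b) (v62 x1 x2) := enc_sub (h47 h) (h60 h)

def t63 (b : Bx) : TM := tinv S (t2 b)
noncomputable def v63 (x1 x2 : ℝ) : ℝ := (v2 x1 x2)⁻¹
theorem h63 (h : In b E x1 x2) : Enc S E (t63 b) (v63 x1 x2) := enc_inv hS (h2 h)

def t64 (b : Bx) : TM := tmul S (t25 b) (t63 b)
noncomputable def v64 (x1 x2 : ℝ) : ℝ := v25 x1 x2 * v63 x1 x2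
theorem h64 (h : In b E x1 x2) : Enc S E (t64 b) (v64 x1 x2) := enc_mul hS (h25 h) (h63 h)

def t67 (b : Bx) : TM := tadd (t5 b) (t64 b)
noncomputable def v67 (x1 x2 : ℝ) : ℝ := v5 x1 x2 + v64 x1 x2
theorem h67 (h : In b E x1 x2) : Enc S E (t67 b) (v67 x1 x2) := enc_add (h5 h) (h64 h)

def t68 (b : Bx) : TM := tsub (t67 b) (t24 b)
noncomputable def v68 (x1 x2 : ℝ) : ℝ := v67 x1 x2 - v24 x1 x2
theorem h68 (h : In b E x1 x2) : Enc S E (t68 b) (v68 x1 x2) := enc_sub (h67 h) (h24 h)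

def t69 (b : Bx) : TM := tinv S (t68 b)
noncomputable def v69 (x1 x2 : ℝ) : ℝ := (v68 x1 x2)⁻¹
theorem h69 (h : In b E x1 x2) : Enc S E (t69 b) (v69 x1 x2) := enc_inv hS (h68 h)

def t71 (b : Bx) : TM := tmul S (t57 b) (t63 b)
noncomputable def v71 (x1 x2 : ℝ) : ℝ := v57 x1 x2 * v63 x1 x2
theorem h71 (h : In b E x1 x2) : Enc S E (t71 b) (v71 x1 x2) := enc_mul hS (h57 h) (h63 h)

def t72 (b : Bx) : TM := tmul S (t56 b) (t63 b)
noncomputable def v72 (x1 x2 : ℝ) : ℝ := v56 x1 x2 * v63 x1 x2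
theorem h72 (h : In b E x1 x2) : Enc S E (t72 b) (v72 x1 x2) := enc_mul hS (h56 h) (h63 h)

def t73 (b : Bx) : TM := tsub (t71 b) (t45 b)
noncomputable def v73 (x1 x2 : ℝ) : ℝ := v71 x1 x2 - v45 x1 x2
theorem h73 (h : In b E x1 x2) : Enc S E (t73 b) (v73 x1 x2) := enc_sub (h71 h) (h45 h)

def t74 (b : Bx) : TM := tadd (t72 b) (t5 b)
noncomputable def v74 (x1 x2 : ℝ) : ℝ := v72 x1 x2 + v5 x1 x2
theorem h74 (h : In b E x1 x2) : Enc S E (t74 b) (v74 x1 x2) := enc_add (h72 h) (h5 h)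

def t75 (b : Bx) : TM := tmul S (t45 b) (t73 b)
noncomputable def v75 (x1 x2 : ℝ) : ℝ := v45 x1 x2 * v73 x1 x2
theorem h75 (h : In b E x1 x2) : Enc S E (t75 b) (v75 x1 x2) := enc_mul hS (h45 h) (h73 h)

def t76 (b : Bx) : TM := tsub (t24 b) (t64 b)
noncomputable def v76 (x1 x2 : ℝ) : ℝ := v24 x1 x2 - v64 x1 x2
theorem h76 (h : In b E x1 x2) : Enc S E (t76 b) (v76 x1 x2) := enc_sub (h24 h) (h64 h)

def t77 (b : Bx) : TM := tmul S (t45 b) (t74 b)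
noncomputable def v77 (x1 x2 : ℝ) : ℝ := v45 x1 x2 * v74 x1 x2
theorem h77 (h : In b E x1 x2) : Enc S E (t77 b) (v77 x1 x2) := enc_mul hS (h45 h) (h74 h)

def t78 (b : Bx) : TM := tadd (t76 b) (t77 b)
noncomputable def v78 (x1 x2 : ℝ) : ℝ := v76 x1 x2 + v77 x1 x2
theorem h78 (h : In b E x1 x2) : Enc S E (t78 b) (v78 x1 x2) := enc_add (h76 h) (h77 h)

def t79 (b : Bx) : TM := tadd (t5 b) (t71 b)
noncomputable def v79 (x1 x2 : ℝ) : ℝ := v5 x1 x2 + v71 x1 x2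
theorem h79 (h : In b E x1 x2) : Enc S E (t79 b) (v79 x1 x2) := enc_add (h5 h) (h71 h)

def t80 (b : Bx) : TM := tsub (t79 b) (t45 b)
noncomputable def v80 (x1 x2 : ℝ) : ℝ := v79 x1 x2 - v45 x1 x2
theorem h80 (h : In b E x1 x2) : Enc S E (t80 b) (v80 x1 x2) := enc_sub (h79 h) (h45 h)

def t81 (b : Bx) : TM := tinv S (t80 b)
noncomputable def v81 (x1 x2 : ℝ) : ℝ := (v80 x1 x2)⁻¹
theorem h81 (h : In b E x1 x2) : Enc S E (t81 b) (v81 x1 x2) := enc_inv hS (h80 h)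

def t82 (b : Bx) : TM := tmul S (t69 b) (t81 b)
noncomputable def v82 (x1 x2 : ℝ) : ℝ := v69 x1 x2 * v81 x1 x2
theorem h82 (h : In b E x1 x2) : Enc S E (t82 b) (v82 x1 x2) := enc_mul hS (h69 h) (h81 h)

def t83 (b : Bx) : TM := tmul S (t74 b) (t82 b)
noncomputable def v83 (x1 x2 : ℝ) : ℝ := v74 x1 x2 * v82 x1 x2
theorem h83 (h : In b E x1 x2) : Enc S E (t83 b) (v83 x1 x2) := enc_mul hS (h74 h) (h82 h)

def t86 (b : Bx) : TM := tmul S (t78 b) (t69 b)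
noncomputable def v86 (x1 x2 : ℝ) : ℝ := v78 x1 x2 * v69 x1 x2
theorem h86 (h : In b E x1 x2) : Enc S E (t86 b) (v86 x1 x2) := enc_mul hS (h78 h) (h69 h)

def t87 (b : Bx) : TM := tmul S (t75 b) (t83 b)
noncomputable def v87 (x1 x2 : ℝ) : ℝ := v75 x1 x2 * v83 x1 x2
theorem h87 (h : In b E x1 x2) : Enc S E (t87 b) (v87 x1 x2) := enc_mul hS (h75 h) (h83 h)

def t89 (b : Bx) : TM := tsub (t86 b) (t87 b)
noncomputable def v89 (x1 x2 : ℝ) : ℝ := v86 x1 x2 - v87 x1 x2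
theorem h89 (h : In b E x1 x2) : Enc S E (t89 b) (v89 x1 x2) := enc_sub (h86 h) (h87 h)

def t90 (b : Bx) : TM := kx3_t (t24 b) (t25 b)
noncomputable def v90 (x1 x2 : ℝ) : ℝ := kx3_v (v24 x1 x2) (v25 x1 x2)
theorem h90 (h : In b E x1 x2) : Enc S E (t90 b) (v90 x1 x2) := kx3_enc (h24 h) (h25 h)

def t91 (b : Bx) : TM := f1p_t (t25 b)
noncomputable def v91 (x1 x2 : ℝ) : ℝ := f1p_v (v25 x1 x2)
theorem h91 (h : In b E x1 x2) : Enc S E (t91 b) (v91 x1 x2) := f1p_enc (h25 h)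

def t92 (b : Bx) : TM := tsub (t24 b) (t91 b)
noncomputable def v92 (x1 x2 : ℝ) : ℝ := v24 x1 x2 - v91 x1 x2
theorem h92 (h : In b E x1 x2) : Enc S E (t92 b) (v92 x1 x2) := enc_sub (h24 h) (h91 h)

def t95 (b : Bx) : TM := tmul S (t62 b) (t90 b)
noncomputable def v95 (x1 x2 : ℝ) : ℝ := v62 x1 x2 * v90 x1 x2
theorem h95 (h : In b E x1 x2) : Enc S E (t95 b) (v95 x1 x2) := enc_mul hS (h62 h) (h90 h)

def t96 (b : Bx) : TM := tadd (t89 b) (t95 b)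
noncomputable def v96 (x1 x2 : ℝ) : ℝ := v89 x1 x2 + v95 x1 x2
theorem h96 (h : In b E x1 x2) : Enc S E (t96 b) (v96 x1 x2) := enc_add (h89 h) (h95 h)

def t97 (b : Bx) : TM := tmul S (t7 b) (t23 b)
noncomputable def v97 (x1 x2 : ℝ) : ℝ := v7 x1 x2 * v23 x1 x2
theorem h97 (h : In b E x1 x2) : Enc S E (t97 b) (v97 x1 x2) := enc_mul hS (h7 h) (h23 h)

def t98 (b : Bx) : TM := tmul S (t1 b) (t0 b)
noncomputable def v98 (x1 x2 : ℝ) : ℝ := v1 x1 x2 * v0 x1 x2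
theorem h98 (h : In b E x1 x2) : Enc S E (t98 b) (v98 x1 x2) := enc_mul hS (h1 h) (h0 h)

def t99 (b : Bx) : TM := tsub (t97 b) (t98 b)
noncomputable def v99 (x1 x2 : ℝ) : ℝ := v97 x1 x2 - v98 x1 x2
theorem h99 (h : In b E x1 x2) : Enc S E (t99 b) (v99 x1 x2) := enc_sub (h97 h) (h98 h)

def t100 (b : Bx) : TM := tmul S (t99 b) (t63 b)
noncomputable def v100 (x1 x2 : ℝ) : ℝ := v99 x1 x2 * v63 x1 x2
theorem h100 (h : In b E x1 x2) : Enc S E (t100 b) (v100 x1 x2) := enc_mul hS (h99 h) (h63 h)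

def t101 (b : Bx) : TM := tsub (t100 b) (t9 b)
noncomputable def v101 (x1 x2 : ℝ) : ℝ := v100 x1 x2 - v9 x1 x2
theorem h101 (h : In b E x1 x2) : Enc S E (t101 b) (v101 x1 x2) := enc_sub (h100 h) (h9 h)

def t103 (b : Bx) : TM := tmul S (t7 b) (t56 b)
noncomputable def v103 (x1 x2 : ℝ) : ℝ := v7 x1 x2 * v56 x1 x2
theorem h103 (h : In b E x1 x2) : Enc S E (t103 b) (v103 x1 x2) := enc_mul hS (h7 h) (h56 h)

def t107 (b : Bx) : TM := tadd (t103 b) (t0 b)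
noncomputable def v107 (x1 x2 : ℝ) : ℝ := v103 x1 x2 + v0 x1 x2
theorem h107 (h : In b E x1 x2) : Enc S E (t107 b) (v107 x1 x2) := enc_add (h103 h) (h0 h)

def t109 (b : Bx) : TM := tmul S (t107 b) (t63 b)
noncomputable def v109 (x1 x2 : ℝ) : ℝ := v107 x1 x2 * v63 x1 x2
theorem h109 (h : In b E x1 x2) : Enc S E (t109 b) (v109 x1 x2) := enc_mul hS (h107 h) (h63 h)

def t111 (b : Bx) : TM := tsub (t0 b) (t3 b)
noncomputable def v111 (x1 x2 : ℝ) : ℝ := v0 x1 x2 - v3 x1 x2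
theorem h111 (h : In b E x1 x2) : Enc S E (t111 b) (v111 x1 x2) := enc_sub (h0 h) (h3 h)

def t112 (b : Bx) : TM := tsub (t23 b) (t3 b)
noncomputable def v112 (x1 x2 : ℝ) : ℝ := v23 x1 x2 - v3 x1 x2
theorem h112 (h : In b E x1 x2) : Enc S E (t112 b) (v112 x1 x2) := enc_sub (h23 h) (h3 h)

def t113 (b : Bx) : TM := tsub (t25 b) (t2 b)
noncomputable def v113 (x1 x2 : ℝ) : ℝ := v25 x1 x2 - v2 x1 x2
theorem h113 (h : In b E x1 x2) : Enc S E (t113 b) (v113 x1 x2) := enc_sub (h25 h) (h2 h)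

def t114 (b : Bx) : TM := tadd (t96 b) (t5 b)
noncomputable def v114 (x1 x2 : ℝ) : ℝ := v96 x1 x2 + v5 x1 x2
theorem h114 (h : In b E x1 x2) : Enc S E (t114 b) (v114 x1 x2) := enc_add (h96 h) (h5 h)

def t116 (b : Bx) : TM := tsub (t3 b) (t0 b)
noncomputable def v116 (x1 x2 : ℝ) : ℝ := v3 x1 x2 - v0 x1 x2
theorem h116 (h : In b E x1 x2) : Enc S E (t116 b) (v116 x1 x2) := enc_sub (h3 h) (h0 h)

def t117 (b : Bx) : TM := tmul S (t56 b) (t36 b)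
noncomputable def v117 (x1 x2 : ℝ) : ℝ := v56 x1 x2 * v36 x1 x2
theorem h117 (h : In b E x1 x2) : Enc S E (t117 b) (v117 x1 x2) := enc_mul hS (h56 h) (h36 h)

def t118 (b : Bx) : TM := tsub (t116 b) (t117 b)
noncomputable def v118 (x1 x2 : ℝ) : ℝ := v116 x1 x2 - v117 x1 x2
theorem h118 (h : In b E x1 x2) : Enc S E (t118 b) (v118 x1 x2) := enc_sub (h116 h) (h117 h)

def t119 (b : Bx) : TM := tmul S (t112 b) (t114 b)
noncomputable def v119 (x1 x2 : ℝ) : ℝ := v112 x1 x2 * v114 x1 x2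
theorem h119 (h : In b E x1 x2) : Enc S E (t119 b) (v119 x1 x2) := enc_mul hS (h112 h) (h114 h)

def t120 (b : Bx) : TM := tsub (t118 b) (t119 b)
noncomputable def v120 (x1 x2 : ℝ) : ℝ := v118 x1 x2 - v119 x1 x2
theorem h120 (h : In b E x1 x2) : Enc S E (t120 b) (v120 x1 x2) := enc_sub (h118 h) (h119 h)

def t123 (b : Bx) : TM := tsub (t3 b) (t23 b)
noncomputable def v123 (x1 x2 : ℝ) : ℝ := v3 x1 x2 - v23 x1 x2
theorem h123 (h : In b E x1 x2) : Enc S E (t123 b) (v123 x1 x2) := enc_sub (h3 h) (h23 h)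

def t124 (b : Bx) : TM := tsub (t2 b) (t25 b)
noncomputable def v124 (x1 x2 : ℝ) : ℝ := v2 x1 x2 - v25 x1 x2
theorem h124 (h : In b E x1 x2) : Enc S E (t124 b) (v124 x1 x2) := enc_sub (h2 h) (h25 h)

def t125 (b : Bx) : TM := qn_t (t112 b) (t124 b) (t109 b) (t120 b) (t114 b)
noncomputable def v125 (x1 x2 : ℝ) : ℝ := qn_v (v112 x1 x2) (v124 x1 x2) (v109 x1 x2) (v120 x1 x2) (v114 x1 x2)
theorem h125 (h : In b E x1 x2) : Enc S E (t125 b) (v125 x1 x2) := qn_enc (h112 h) (h124 h) (h109 h) (h120 h) (h114 h)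

def t126 (b : Bx) : TM := tscale 1 4 (t2 b)
noncomputable def v126 (x1 x2 : ℝ) : ℝ := ((1 : ℕ) : ℝ) / ((4 : ℕ) : ℝ) * v2 x1 x2
theorem h126 (h : In b E x1 x2) : Enc S E (t126 b) (v126 x1 x2) := enc_scale 1 (by norm_num) (h2 h)

def t128 (b : Bx) : TM := tsub (t126 b) (t0 b)
noncomputable def v128 (x1 x2 : ℝ) : ℝ := v126 x1 x2 - v0 x1 x2
theorem h128 (h : In b E x1 x2) : Enc S E (t128 b) (v128 x1 x2) := enc_sub (h126 h) (h0 h)

def t129 (b : Bx) : TM := tscale 3 4 (t2 b)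
noncomputable def v129 (x1 x2 : ℝ) : ℝ := ((3 : ℕ) : ℝ) / ((4 : ℕ) : ℝ) * v2 x1 x2
theorem h129 (h : In b E x1 x2) : Enc S E (t129 b) (v129 x1 x2) := enc_scale 3 (by norm_num) (h2 h)

def t131 (b : Bx) : TM := tsub (t23 b) (t129 b)
noncomputable def v131 (x1 x2 : ℝ) : ℝ := v23 x1 x2 - v129 x1 x2
theorem h131 (h : In b E x1 x2) : Enc S E (t131 b) (v131 x1 x2) := enc_sub (h23 h) (h129 h)

def t133 (b : Bx) : TM := tsub (t129 b) (t25 b)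
noncomputable def v133 (x1 x2 : ℝ) : ℝ := v129 x1 x2 - v25 x1 x2
theorem h133 (h : In b E x1 x2) : Enc S E (t133 b) (v133 x1 x2) := enc_sub (h129 h) (h25 h)

def t134 (_b : Bx) : TM := tconst (Nat.div (Nat.mul 1 S) 16) 0 1
noncomputable def v134 (_x1 _x2 : ℝ) : ℝ := ((1 : ℕ) : ℝ) / ((16 : ℕ) : ℝ)
theorem h134 (_h : In b E x1 x2) : Enc S E (t134 b) (v134 x1 x2) := enc_rat E 1 (by norm_num)

def t135 (b : Bx) : TM := tsub (t26 b) (t134 b)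
noncomputable def v135 (x1 x2 : ℝ) : ℝ := v26 x1 x2 - v134 x1 x2
theorem h135 (h : In b E x1 x2) : Enc S E (t135 b) (v135 x1 x2) := enc_sub (h26 h) (h134 h)

def t136 (b : Bx) : TM := tsub (t20 b) (t134 b)
noncomputable def v136 (x1 x2 : ℝ) : ℝ := v20 x1 x2 - v134 x1 x2
theorem h136 (h : In b E x1 x2) : Enc S E (t136 b) (v136 x1 x2) := enc_sub (h20 h) (h134 h)

def t137 (_b : Bx) : TM := tconst (Nat.div (Nat.mul 83 S) 50) 0 1
noncomputable def v137 (_x1 _x2 : ℝ) : ℝ := ((83 : ℕ) : ℝ) / ((50 : ℕ) : ℝ)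
theorem h137 (_h : In b E x1 x2) : Enc S E (t137 b) (v137 x1 x2) := enc_rat E 83 (by norm_num)

def t138 (b : Bx) : TM := tsub (t25 b) (t137 b)
noncomputable def v138 (x1 x2 : ℝ) : ℝ := v25 x1 x2 - v137 x1 x2
theorem h138 (h : In b E x1 x2) : Enc S E (t138 b) (v138 x1 x2) := enc_sub (h25 h) (h137 h)

def t139 (b : Bx) : TM := tsub (t41 b) (t40 b)
noncomputable def v139 (x1 x2 : ℝ) : ℝ := v41 x1 x2 - v40 x1 x2
theorem h139 (h : In b E x1 x2) : Enc S E (t139 b) (v139 x1 x2) := enc_sub (h41 h) (h40 h)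

def t140 (b : Bx) : TM := tadd (t101 b) (t9 b)
noncomputable def v140 (x1 x2 : ℝ) : ℝ := v101 x1 x2 + v9 x1 x2
theorem h140 (h : In b E x1 x2) : Enc S E (t140 b) (v140 x1 x2) := enc_add (h101 h) (h9 h)

def t141 (b : Bx) : TM := tneg (t140 b)
noncomputable def v141 (x1 x2 : ℝ) : ℝ := -(v140 x1 x2)
theorem h141 (h : In b E x1 x2) : Enc S E (t141 b) (v141 x1 x2) := enc_neg (h140 h)

def g0 (b : Bx) : Bool := and (pos (t62 b)) (and (pos (t22 b)) (and (pos (t54 b)) (and (pos (t68 b)) (and (pos (t80 b)) (and (pos (t92 b)) (and (pos (t34 b)) (or (pos (t20 b)) (pos (t125 b)))))))))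

def l0 (b : Bx) : Nat := cond (g0 b) 0 (pickb 1 (t125 b) b)

def P0 (x1 x2 : ℝ) : Prop := 0 < v62 x1 x2 ∧ 0 < v22 x1 x2 ∧ 0 < v54 x1 x2 ∧ 0 < v68 x1 x2 ∧ 0 < v80 x1 x2 ∧ 0 < v92 x1 x2 ∧ 0 < v34 x1 x2 ∧ (0 < v20 x1 x2 ∨ 0 < v125 x1 x2)

theorem l0_sound (h : In b E x1 x2) (e : l0 b = 0) : P0 x1 x2 := by
  have e1 : g0 b = true := by
    rcases e2 : g0 b with _ | _
    · unfold l0 at e; rw [e2, cond_false] at e; exact absurd e (pickb_ne _ _ _)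
    · rfl
  exact ⟨pos_sound hS (h62 h) (Bool.and_eq_true_iff.mp e1).1, ⟨pos_sound hS (h22 h) (Bool.and_eq_true_iff.mp (Bool.and_eq_true_iff.mp e1).2).1, ⟨pos_sound hS (h54 h) (Bool.and_eq_true_iff.mp (Bool.and_eq_true_iff.mp (Bool.and_eq_true_iff.mp e1).2).2).1, ⟨pos_sound hS (h68 h) (Bool.and_eq_true_iff.mp (Bool.and_eq_true_iff.mp (Bool.and_eq_true_iff.mp (Bool.and_eq_true_iff.mp e1).2).2).2).1, ⟨pos_sound hS (h80 h) (Bool.and_eq_true_iff.mp (Bool.and_eq_true_iff.mp (Bool.and_eq_true_iff.mp (Bool.and_eq_true_iff.mp (Bool.and_eq_true_iff.mp e1).2).2).2).2).1, ⟨pos_sound hS (h92 h) (Bool.and_eq_true_iff.mp (Bool.and_eq_true_iff.mp (Bool.and_eq_true_iff.mp (Bool.and_eq_true_iff.mp (Bool.and_eq_true_iff.mp (Bool.and_eq_true_iff.mp e1).2).2).2).2).2).1, ⟨pos_sound hS (h34 h) (Bool.and_eq_true_iff.mp (Bool.and_eq_true_iff.mp (Bool.and_eq_true_iff.mp (Bool.and_eq_true_iff.mp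 (Bool.and_eq_true_iff.mp (Bool.and_eq_true_iff.mp (Bool.and_eq_true_iff.mp e1).2).2).2).2).2).2).1, ((Bool.or_eq_true_iff.mp (Bool.and_eq_true_iff.mp (Bool.and_eq_true_iff.mp (Bool.and_eq_true_iff.mp (Bool.and_eq_true_iff.mp (Bool.and_eq_true_iff.mp (Bool.and_eq_true_iff.mp (Bool.and_eq_true_iff.mp e1).2).2).2).2).2).2).2).imp (fun a => pos_sound hS (h20 h) a) (fun a => pos_sound hS (h125 h) a))⟩⟩⟩⟩⟩⟩⟩

def g1 (b : Bx) : Bool := or (pos (t128 b)) (or (pos (t111 b)) (or (pos (t123 b)) (or (pos (t131 b)) (or (pos (t133 b)) (or (pos (t135 b)) (or (pos (t136 b)) (or (pos (t113 b)) (or (pos (t138 b)) (or (pos (t139 b)) (pos (t141 b)))))))))))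

def l1 (b : Bx) : Nat := cond (g1 b) 0 (l0 b)

def P1 (x1 x2 : ℝ) : Prop := (0 < v128 x1 x2 ∨ 0 < v111 x1 x2 ∨ 0 < v123 x1 x2 ∨ 0 < v131 x1 x2 ∨ 0 < v133 x1 x2 ∨ 0 < v135 x1 x2 ∨ 0 < v136 x1 x2 ∨ 0 < v113 x1 x2 ∨ 0 < v138 x1 x2 ∨ 0 < v139 x1 x2 ∨ 0 < v141 x1 x2) ∨ (P0 x1 x2)

theorem l1_sound (h : In b E x1 x2) (e : l1 b = 0) : P1 x1 x2 := by
  unfold l1 at e
  rcases e1 : g1 b with _ | _
  · rw [e1, cond_false] at e
    have z0 : l0 b = 0 := e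
    exact Or.inr (l0_sound h z0)
  · exact Or.inl (((Bool.or_eq_true_iff.mp e1).imp (fun a => pos_sound hS (h128 h) a) (fun a => ((Bool.or_eq_true_iff.mp a).imp (fun a => pos_sound hS (h111 h) a) (fun a => ((Bool.or_eq_true_iff.mp a).imp (fun a => pos_sound hS (h123 h) a) (fun a => ((Bool.or_eq_true_iff.mp a).imp (fun a => pos_sound hS (h131 h) a) (fun a => ((Bool.or_eq_true_iff.mp a).imp (fun a => pos_sound hS (h133 h) a) (fun a => ((Bool.or_eq_true_iff.mp a).imp (fun a => pos_sound hS (h135 h) a) (fun a => ((Bool.or_eq_true_iff.mp a).imp (fun a => pos_sound hS (h136 h) a) (fun a => ((Bool.or_eq_true_iff.mp a).imp (fun a => pos_sound hS (h113 h) a) (fun a => ((Bool.or_eq_true_iff.mp a).imp (fun a => pos_sound hS (h138 h) a) (fun a => ((Bool.or_eq_true_iff.mp a).imp (fun a => pos_sound hS (h139 h) a) (fun a => pos_sound hS (h141 h) a)))))))))))))))))))))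

def f (b : Bx) : Nat := l1 b

/-- the statement -/
def Q (x1 x2 : ℝ) : Prop := P1 x1 x2

theorem f_sound (b : Bx) (hb : f b = 0) (x1 x2 : ℝ) (hm : Mem S b x1 x2) : Q x1 x2 := by
  obtain ⟨E, h⟩ := pt_of_mem hm
  have h : In b E x1 x2 := h
  unfold f at hb
  have e := hb
  have z1 : l1 b = 0 := e
  exact (l1_sound h z1)

/-- the box -/
def b0 : Bx := ⟨697415773, 0, 232471926, 0, 268435456, 268435457⟩

theorem chk_all {n : ℕ} {b : Bx} (h : chk f n b = true) (x1 x2 : ℝ) (hm : Mem S b x1 x2) : Q x1 x2 :=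
  chk_sound (fun b hb x1 x2 hm => f_sound b hb x1 x2 hm) n b h x1 x2 hm


end Pool.Agent.Strip051.LB.ChA00V1_pm_123a
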