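import Pool.Agent.Strip051.LB.ChA00V1_pm_123a.Defs
import Pool.Agent.Strip051.LB.Slope
import Pool.Agent.Strip051.LB.Star
import Pool.Agent.Strip051.LB.Cf

/-! # LINE tight chart ChA00V1_pm_123a: slopes -/

namespace Pool.Agent.Strip051.LB.ChA00V1_pm_123a

open Pool.Agent.Strip051.LB Pool.Agent.Strip051.LB.Fn Pool.Agent.Strip051.LB.Fc Pool.Agent.StripNear

set_option maxRecDepth 100000
set_option linter.all false

noncomputable def v42 (x1 x2 : ℝ) : ℝ := v40 x1 x2 - v41 x1 x2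

noncomputable def v44 (x1 x2 : ℝ) : ℝ := -(v5 x1 x2)

noncomputable def v46 (x1 x2 : ℝ) : ℝ := (v45 x1 x2) ^ 2

noncomputable def v48 (x1 x2 : ℝ) : ℝ := -(v47 x1 x2)

noncomputable def v49 (x1 x2 : ℝ) : ℝ := v39 x1 x2 - v46 x1 x2

noncomputable def v50 (x1 x2 : ℝ) : ℝ := (v12 x1 x2) ^ 2

noncomputable def v52 (x1 x2 : ℝ) : ℝ := -(v51 x1 x2)

noncomputable def v53 (x1 x2 : ℝ) : ℝ := v5 x1 x2 - v50 x1 x2

noncomputable def v58 (x1 x2 : ℝ) : ℝ := (v57 x1 x2) ^ 2

noncomputable def v61 (x1 x2 : ℝ) : ℝ := v49 x1 x2 - v58 x1 x2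

noncomputable def v65 (x1 x2 : ℝ) : ℝ := v64 x1 x2 - v24 x1 x2

noncomputable def v66 (x1 x2 : ℝ) : ℝ := v24 x1 x2 * v65 x1 x2

noncomputable def v70 (x1 x2 : ℝ) : ℝ := v66 x1 x2 * v69 x1 x2

noncomputable def v84 (x1 x2 : ℝ) : ℝ := -(v83 x1 x2)

noncomputable def v85 (x1 x2 : ℝ) : ℝ := v75 x1 x2 * v81 x1 x2

noncomputable def v93 (x1 x2 : ℝ) : ℝ := v42 x1 x2 * v90 x1 x2

noncomputable def v94 (x1 x2 : ℝ) : ℝ := v70 x1 x2 + v93 x1 x2

noncomputable def v102 (x1 x2 : ℝ) : ℝ := v7 x1 x2 * v15 x1 x2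

noncomputable def v104 (x1 x2 : ℝ) : ℝ := v12 x1 x2 * v0 x1 x2

noncomputable def v105 (x1 x2 : ℝ) : ℝ := -(v0 x1 x2)

noncomputable def v106 (x1 x2 : ℝ) : ℝ := v102 x1 x2 - v104 x1 x2

noncomputable def v108 (x1 x2 : ℝ) : ℝ := v106 x1 x2 * v63 x1 x2

noncomputable def v110 (x1 x2 : ℝ) : ℝ := v108 x1 x2 - v9 x1 x2

noncomputable def v115 (x1 x2 : ℝ) : ℝ := v15 x1 x2 - v3 x1 x2

noncomputable def v142 (x1 x2 : ℝ) : ℝ := v57 x1 x2 - v2 x1 x2

structure Cx (x1 x2 : ℝ) : Prop where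
  hc : v7 x1 x2 ^ 2 + x1 ^ 2 = 1
  p22 : 0 < v22 x1 x2
  p54 : 0 < v54 x1 x2
  p68 : 0 < v68 x1 x2
  p80 : 0 < v80 x1 x2
  p92 : 0 < v92 x1 x2
  p34 : 0 < v34 x1 x2

variable {x1 x2 : ℝ}

theorem s3q (x1 x2 : ℝ) : v2 x1 x2 ^ 2 = 3 := by
  rw [v2]; exact s3sq

theorem s3ne (x1 x2 : ℝ) : v2 x1 x2 ≠ 0 := by
  rw [v2]; positivity

theorem s1 (c : Cx x1 x2) : v1 x1 x2 = v12 x1 x2 + v26 x1 x2 * v44 x1 x2 := by
  simp only [v1, v5, v10, v12, v26, v44]
  (try push_cast)
  first | ring | grind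

theorem s21 (c : Cx x1 x2) : v21 x1 x2 = v50 x1 x2 + v26 x1 x2 * v52 x1 x2 := by
  have a0 : (v1 x1 x2 + v12 x1 x2) * v1 x1 x2 = (v1 x1 x2 + v12 x1 x2) * (v12 x1 x2 + v26 x1 x2 * v44 x1 x2) := congrArg (fun z => (v1 x1 x2 + v12 x1 x2) * z) (s1 c)
  try simp only [v1, v5, v10, v12, v21, v26, v44, v50, v51, v52] at a0
  simp only [v1, v5, v10, v12, v21, v26, v44, v50, v51, v52]
  (try push_cast at a0 ⊢)
  first | linear_combination a0 | ring | grind

theorem s22 (c : Cx x1 x2) : v22 x1 x2 = v53 x1 x2 + v26 x1 x2 * v51 x1 x2 := by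
  have a1 := s21 c
  try simp only [v1, v5, v10, v12, v22, v26, v51, v52, v53] at a1
  simp only [v1, v5, v10, v12, v22, v26, v51, v52, v53]
  (try push_cast at a1 ⊢)
  first | linear_combination -a1 | ring | grind

theorem q23 (c : Cx x1 x2) : v53 x1 x2 = v15 x1 x2 ^ 2 := by
  have hc := c.hc
  have h3 := s3q x1 x2
  simp only [v0, v3, v5, v10, v11, v12, v13, v14, v15, v50, v53] at hc ⊢
  push_cast at hc ⊢
  grind

theorem s23 (c : Cx x1 x2) : v23 x1 x2 = v15 x1 x2 + v26 x1 x2 * v56 x1 x2 := by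
  have a0 := s22 c
  have e : 0 < Real.sqrt (v22 x1 x2) + v15 x1 x2 := by
    have e := c.p54
    simp only [v0, v5, v13, v15, v22, v23, v54] at e ⊢
    push_cast at e ⊢
    linarith
  have b := sl_sqrt a0 (q23 c) (le_of_lt c.p22) e
  clear a0
  try simp only [v0, v1, v5, v10, v12, v13, v15, v22, v23, v26, v51, v53, v54, v55, v56] at b
  simp only [v0, v1, v5, v10, v12, v13, v15, v22, v23, v26, v51, v53, v54, v55, v56]
  (try push_cast at b ⊢)
  first | linear_combination b | ring | grind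

theorem s24 (c : Cx x1 x2) : v24 x1 x2 = v45 x1 x2 + v26 x1 x2 * v44 x1 x2 := by
  have a1 := s1 c
  try simp only [v1, v5, v10, v12, v24, v26, v44, v45] at a1
  simp only [v1, v5, v10, v12, v24, v26, v44, v45]
  (try push_cast at a1 ⊢)
  first | linear_combination a1 | ring | grind

theorem s25 (c : Cx x1 x2) : v25 x1 x2 = v57 x1 x2 + v26 x1 x2 * v56 x1 x2 := by
  have a1 := s23 c
  try simp only [v0, v1, v10, v12, v13, v15, v25, v26, v57] at a1
  simp only [v0, v1, v10, v12, v13, v15, v25, v26, v57]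
  (try push_cast at a1 ⊢)
  first | linear_combination a1 | ring | grind

theorem s38 (c : Cx x1 x2) : v38 x1 x2 = v46 x1 x2 + v26 x1 x2 * v48 x1 x2 := by
  have a0 : (v24 x1 x2 + v45 x1 x2) * v24 x1 x2 = (v24 x1 x2 + v45 x1 x2) * (v45 x1 x2 + v26 x1 x2 * v44 x1 x2) := congrArg (fun z => (v24 x1 x2 + v45 x1 x2) * z) (s24 c)
  try simp only [v1, v5, v10, v12, v24, v26, v38, v44, v45, v46, v47, v48] at a0
  simp only [v1, v5, v10, v12, v24, v26, v38, v44, v45, v46, v47, v48]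
  (try push_cast at a0 ⊢)
  first | linear_combination a0 | ring | grind

theorem s40 (c : Cx x1 x2) : v40 x1 x2 = v49 x1 x2 + v26 x1 x2 * v47 x1 x2 := by
  have a1 := s38 c
  try simp only [v1, v10, v12, v24, v26, v39, v40, v45, v47, v48, v49] at a1
  simp only [v1, v10, v12, v24, v26, v39, v40, v45, v47, v48, v49]
  (try push_cast at a1 ⊢)
  first | linear_combination -a1 | ring | grind

theorem s41 (c : Cx x1 x2) : v41 x1 x2 = v58 x1 x2 + v26 x1 x2 * v60 x1 x2 := by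
  have a0 : (v25 x1 x2 + v57 x1 x2) * v25 x1 x2 = (v25 x1 x2 + v57 x1 x2) * (v57 x1 x2 + v26 x1 x2 * v56 x1 x2) := congrArg (fun z => (v25 x1 x2 + v57 x1 x2) * z) (s25 c)
  try simp only [v0, v1, v10, v12, v13, v15, v25, v26, v41, v57, v58, v59, v60] at a0
  simp only [v0, v1, v10, v12, v13, v15, v25, v26, v41, v57, v58, v59, v60]
  (try push_cast at a0 ⊢)
  first | linear_combination a0 | ring | grind

theorem s42 (c : Cx x1 x2) : v42 x1 x2 = v61 x1 x2 + v26 x1 x2 * v62 x1 x2 := by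
  have a0 := s40 c
  have a1 := s41 c
  try simp only [v1, v10, v12, v24, v26, v39, v40, v42, v45, v47, v49, v61, v62] at a0
  try simp only [v1, v10, v12, v24, v26, v39, v40, v42, v45, v47, v49, v61, v62] at a1
  simp only [v1, v10, v12, v24, v26, v39, v40, v42, v45, v47, v49, v61, v62]
  (try push_cast at a0 a1 ⊢)
  first | linear_combination a0 - a1 | ring | grind

theorem s64 (c : Cx x1 x2) : v64 x1 x2 = v71 x1 x2 + v26 x1 x2 * v72 x1 x2 := by
  have a0 : (v63 x1 x2) * v25 x1 x2 = (v63 x1 x2) * (v57 x1 x2 + v26 x1 x2 * v56 x1 x2) := congrArg (fun z => (v63 x1 x2) * z) (s25 c)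
  try simp only [v0, v1, v10, v12, v13, v15, v25, v26, v57, v64, v71, v72] at a0
  simp only [v0, v1, v10, v12, v13, v15, v25, v26, v57, v64, v71, v72]
  (try push_cast at a0 ⊢)
  first | linear_combination a0 | ring | grind

theorem s65 (c : Cx x1 x2) : v65 x1 x2 = v73 x1 x2 + v26 x1 x2 * v74 x1 x2 := by
  have a0 := s64 c
  have a1 := s24 c
  try simp only [v1, v5, v10, v12, v24, v26, v44, v45, v65, v73, v74] at a0
  try simp only [v1, v5, v10, v12, v24, v26, v44, v45, v65, v73, v74] at a1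
  simp only [v1, v5, v10, v12, v24, v26, v44, v45, v65, v73, v74]
  (try push_cast at a0 a1 ⊢)
  first | linear_combination a0 - a1 | ring | grind

theorem s66 (c : Cx x1 x2) : v66 x1 x2 = v75 x1 x2 + v26 x1 x2 * v78 x1 x2 := by
  have a0 : (v65 x1 x2) * v24 x1 x2 = (v65 x1 x2) * (v45 x1 x2 + v26 x1 x2 * v44 x1 x2) := congrArg (fun z => (v65 x1 x2) * z) (s24 c)
  have a1 : (v45 x1 x2) * v65 x1 x2 = (v45 x1 x2) * (v73 x1 x2 + v26 x1 x2 * v74 x1 x2) := congrArg (fun z => (v45 x1 x2) * z) (s65 c)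
  try simp only [v1, v5, v10, v12, v24, v26, v44, v45, v65, v66, v73, v74, v75, v76, v77, v78] at a0
  try simp only [v1, v5, v10, v12, v24, v26, v44, v45, v65, v66, v73, v74, v75, v76, v77, v78] at a1
  simp only [v1, v5, v10, v12, v24, v26, v44, v45, v65, v66, v73, v74, v75, v76, v77, v78]
  (try push_cast at a0 a1 ⊢)
  first | linear_combination a0 + a1 | ring | grind

theorem s67 (c : Cx x1 x2) : v67 x1 x2 = v79 x1 x2 + v26 x1 x2 * v72 x1 x2 := by
  have a1 := s64 c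
  try simp only [v1, v5, v10, v12, v26, v67, v79] at a1
  simp only [v1, v5, v10, v12, v26, v67, v79]
  (try push_cast at a1 ⊢)
  first | linear_combination a1 | ring | grind

theorem s68 (c : Cx x1 x2) : v68 x1 x2 = v80 x1 x2 + v26 x1 x2 * v74 x1 x2 := by
  have a0 := s67 c
  have a1 := s24 c
  try simp only [v1, v5, v10, v12, v24, v26, v44, v45, v67, v68, v74, v79, v80] at a0
  try simp only [v1, v5, v10, v12, v24, v26, v44, v45, v67, v68, v74, v79, v80] at a1
  simp only [v1, v5, v10, v12, v24, v26, v44, v45, v67, v68, v74, v79, v80]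
  (try push_cast at a0 a1 ⊢)
  first | linear_combination a0 - a1 | ring | grind

theorem s69 (c : Cx x1 x2) : v69 x1 x2 = v81 x1 x2 + v26 x1 x2 * v84 x1 x2 := by
  have a0 := s68 c
  have b := sl_inv a0 (c.p68).ne' (c.p80).ne'
  clear a0
  try simp only [v1, v5, v10, v12, v24, v26, v45, v67, v68, v69, v74, v79, v80, v81, v82, v83, v84] at b
  simp only [v1, v5, v10, v12, v24, v26, v45, v67, v68, v69, v74, v79, v80, v81, v82, v83, v84]
  (try push_cast at b ⊢)
  first | linear_combination b | ring | grind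

theorem s70 (c : Cx x1 x2) : v70 x1 x2 = v85 x1 x2 + v26 x1 x2 * v89 x1 x2 := by
  have a0 : (v69 x1 x2) * v66 x1 x2 = (v69 x1 x2) * (v75 x1 x2 + v26 x1 x2 * v78 x1 x2) := congrArg (fun z => (v69 x1 x2) * z) (s66 c)
  have a1 : (v75 x1 x2) * v69 x1 x2 = (v75 x1 x2) * (v81 x1 x2 + v26 x1 x2 * v84 x1 x2) := congrArg (fun z => (v75 x1 x2) * z) (s69 c)
  try simp only [v1, v10, v12, v24, v26, v70, v76, v78, v84, v85, v86, v87, v89] at a0
  try simp only [v1, v10, v12, v24, v26, v70, v76, v78, v84, v85, v86, v87, v89] at a1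
  simp only [v1, v10, v12, v24, v26, v70, v76, v78, v84, v85, v86, v87, v89]
  (try push_cast at a0 a1 ⊢)
  first | linear_combination a0 + a1 | ring | grind

theorem s97 (c : Cx x1 x2) : v97 x1 x2 = v102 x1 x2 + v26 x1 x2 * v103 x1 x2 := by
  have a1 : (v7 x1 x2) * v23 x1 x2 = (v7 x1 x2) * (v15 x1 x2 + v26 x1 x2 * v56 x1 x2) := congrArg (fun z => (v7 x1 x2) * z) (s23 c)
  try simp only [v0, v1, v10, v12, v13, v15, v26, v97, v102, v103] at a1
  simp only [v0, v1, v10, v12, v13, v15, v26, v97, v102, v103]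
  (try push_cast at a1 ⊢)
  first | linear_combination a1 | ring | grind

theorem s98 (c : Cx x1 x2) : v98 x1 x2 = v104 x1 x2 + v26 x1 x2 * v105 x1 x2 := by
  have a0 : (v0 x1 x2) * v1 x1 x2 = (v0 x1 x2) * (v12 x1 x2 + v26 x1 x2 * v44 x1 x2) := congrArg (fun z => (v0 x1 x2) * z) (s1 c)
  try simp only [v0, v1, v5, v10, v12, v26, v44, v98, v104, v105] at a0
  simp only [v0, v1, v5, v10, v12, v26, v44, v98, v104, v105]
  (try push_cast at a0 ⊢)
  first | linear_combination a0 | ring | grind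

theorem s99 (c : Cx x1 x2) : v99 x1 x2 = v106 x1 x2 + v26 x1 x2 * v107 x1 x2 := by
  have a0 := s97 c
  have a1 := s98 c
  try simp only [v0, v1, v10, v12, v26, v99, v105, v106, v107] at a0
  try simp only [v0, v1, v10, v12, v26, v99, v105, v106, v107] at a1
  simp only [v0, v1, v10, v12, v26, v99, v105, v106, v107]
  (try push_cast at a0 a1 ⊢)
  first | linear_combination a0 - a1 | ring | grind

theorem s100 (c : Cx x1 x2) : v100 x1 x2 = v108 x1 x2 + v26 x1 x2 * v109 x1 x2 := by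
  have a0 : (v63 x1 x2) * v99 x1 x2 = (v63 x1 x2) * (v106 x1 x2 + v26 x1 x2 * v107 x1 x2) := congrArg (fun z => (v63 x1 x2) * z) (s99 c)
  try simp only [v0, v1, v10, v12, v26, v99, v100, v106, v107, v108, v109] at a0
  simp only [v0, v1, v10, v12, v26, v99, v100, v106, v107, v108, v109]
  (try push_cast at a0 ⊢)
  first | linear_combination a0 | ring | grind

theorem s101 (c : Cx x1 x2) : v101 x1 x2 = v110 x1 x2 + v26 x1 x2 * v109 x1 x2 := by
  have a0 := s100 c
  try simp only [v1, v9, v10, v12, v26, v101, v110] at a0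
  simp only [v1, v9, v10, v12, v26, v101, v110]
  (try push_cast at a0 ⊢)
  first | linear_combination a0 | ring | grind

theorem s112 (c : Cx x1 x2) : v112 x1 x2 = v115 x1 x2 + v26 x1 x2 * v56 x1 x2 := by
  have a0 := s23 c
  try simp only [v0, v1, v2, v3, v10, v12, v13, v15, v26, v112, v115] at a0
  simp only [v0, v1, v2, v3, v10, v12, v13, v15, v26, v112, v115]
  (try push_cast at a0 ⊢)
  first | linear_combination a0 | ring | grind

theorem s113 (c : Cx x1 x2) : v113 x1 x2 = v142 x1 x2 + v26 x1 x2 * v56 x1 x2 := by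
  have a0 := s25 c
  try simp only [v0, v1, v2, v10, v12, v13, v15, v25, v26, v57, v113, v142] at a0
  simp only [v0, v1, v2, v10, v12, v13, v15, v25, v26, v57, v113, v142]
  (try push_cast at a0 ⊢)
  first | linear_combination a0 | ring | grind

theorem bD (c : Cx x1 x2) : v61 x1 x2 = 0 := by
  have hc := c.hc
  have h3 := s3q x1 x2
  simp only [v0, v3, v10, v11, v12, v13, v14, v15, v39, v45, v46, v49, v57, v58, v61] at hc ⊢
  push_cast at hc ⊢
  grind

theorem sD (c : Cx x1 x2) : v42 x1 x2 = v26 x1 x2 * v62 x1 x2 := by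
  have h := s42 c
  rw [bD c, zero_add] at h
  exact h

theorem s94 (c : Cx x1 x2) : v94 x1 x2 = v85 x1 x2 + v26 x1 x2 * v96 x1 x2 := by
  have hA := s70 c
  have hd := sD c
  have hK : v90 x1 x2 * v42 x1 x2 = v90 x1 x2 * (v26 x1 x2 * v62 x1 x2) := congrArg (fun z => v90 x1 x2 * z) hd
  try simp only [v1, v10, v12, v24, v26, v39, v40, v42, v45, v47, v62, v89, v93, v94, v95, v96] at hA
  try simp only [v1, v10, v12, v24, v26, v39, v40, v42, v45, v47, v62, v89, v93, v94, v95, v96] at hK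
  simp only [v1, v10, v12, v24, v26, v39, v40, v42, v45, v47, v62, v89, v93, v94, v95, v96]
  (try push_cast at hA hK ⊢)
  first | linear_combination (hA + hK) | grind

theorem bE (c : Cx x1 x2) : v110 x1 x2 = 0 := by
  have hc := c.hc
  have h3 := s3q x1 x2
  have g0 : v2 x1 x2 ≠ 0 := s3ne x1 x2
  simp only [v0, v3, v9, v10, v11, v12, v13, v14, v15, v63, v102, v104, v106, v108, v110] at hc ⊢
  push_cast at hc ⊢
  grind

theorem hE (c : Cx x1 x2) : v101 x1 x2 = v26 x1 x2 * v109 x1 x2 := by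
  have h := s101 c
  rw [bE c, zero_add] at h
  exact h

theorem bS (c : Cx x1 x2) : v85 x1 x2 - v36 x1 x2 - v12 x1 x2 = 0 := by
  have hc := c.hc
  have h3 := s3q x1 x2
  have g0 := (c.p34).ne'
  have g2 := (c.p80).ne'
  have g1 : v2 x1 x2 ≠ 0 := s3ne x1 x2
  simp only [v0, v3, v5, v10, v11, v12, v13, v14, v15, v27, v28, v29, v30, v31, v32, v33, v34, v35, v36, v45, v57, v63, v71, v73, v75, v79, v80, v81, v85] at hc g0 g2 ⊢
  push_cast at hc g0 g2 ⊢
  grind

theorem hS (c : Cx x1 x2) : v94 x1 x2 - v36 x1 x2 - v1 x1 x2 = v26 x1 x2 * v114 x1 x2 := by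
  have a3 := s94 c
  have a2 := s1 c
  have b := bS c
  try simp only [v1, v5, v10, v12, v26, v44, v89, v94, v96, v114] at a3
  try simp only [v1, v5, v10, v12, v26, v44, v89, v94, v96, v114] at a2
  try simp only [v1, v5, v10, v12, v26, v44, v89, v94, v96, v114] at b
  try simp only [v1, v5, v10, v12, v26, v44, v89, v94, v96, v114]
  (try push_cast at a3 a2 b ⊢)
  first | linear_combination a3 - a2 + b | grind

theorem bC (c : Cx x1 x2) : v111 x1 x2 * v12 x1 x2 - v115 x1 x2 * v36 x1 x2 = 0 := by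
  have hc := c.hc
  have h3 := s3q x1 x2
  have g0 := (c.p34).ne'
  simp only [v0, v3, v5, v10, v11, v12, v13, v14, v15, v27, v28, v29, v30, v31, v32, v33, v34, v35, v36, v111, v115] at hc g0 ⊢
  push_cast at hc g0 ⊢
  grind

theorem hC (c : Cx x1 x2) : v111 x1 x2 * v1 x1 x2 - v112 x1 x2 * v36 x1 x2 = v26 x1 x2 * v118 x1 x2 := by
  have a2 : v111 x1 x2 * v1 x1 x2 = v111 x1 x2 * (v12 x1 x2 + v26 x1 x2 * v44 x1 x2) := congrArg (fun z => v111 x1 x2 * z) (s1 c)
  have a3 : v36 x1 x2 * v112 x1 x2 = v36 x1 x2 * (v115 x1 x2 + v26 x1 x2 * v56 x1 x2) := congrArg (fun z => v36 x1 x2 * z) (s112 c)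
  have b := bC c
  try simp only [v0, v1, v2, v3, v5, v10, v12, v13, v15, v26, v44, v111, v112, v115, v116, v117, v118] at a2
  try simp only [v0, v1, v2, v3, v5, v10, v12, v13, v15, v26, v44, v111, v112, v115, v116, v117, v118] at a3
  try simp only [v0, v1, v2, v3, v5, v10, v12, v13, v15, v26, v44, v111, v112, v115, v116, v117, v118] at b
  simp only [v0, v1, v2, v3, v5, v10, v12, v13, v15, v26, v44, v111, v112, v115, v116, v117, v118]
  (try push_cast at a2 a3 b ⊢)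
  first | linear_combination a2 - a3 + b | grind

theorem hT (x1 x2 : ℝ) : v113 x1 x2 = v111 x1 x2 + v112 x1 x2 := by
  simp only [v0, v2, v3, v25, v111, v112, v113]
  push_cast
  ring

theorem hG (c : Cx x1 x2) : (-v113 x1 x2) * (-v1 x1 x2) - v112 x1 x2 * v94 x1 x2 = v26 x1 x2 * v120 x1 x2 := by
  have b := hC c
  have m0 : v112 x1 x2 * (v94 x1 x2 - v36 x1 x2 - v1 x1 x2) = v112 x1 x2 * (v26 x1 x2 * v114 x1 x2) := congrArg (fun z => v112 x1 x2 * z) (hS c)
  have m1 : v1 x1 x2 * v113 x1 x2 = v1 x1 x2 * (v111 x1 x2 + v112 x1 x2) := congrArg (fun z => v1 x1 x2 * z) (hT x1 x2)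
  try simp only [v0, v1, v2, v3, v5, v10, v12, v25, v26, v89, v94, v96, v111, v112, v113, v114, v116, v118, v119, v120] at b
  try simp only [v0, v1, v2, v3, v5, v10, v12, v25, v26, v89, v94, v96, v111, v112, v113, v114, v116, v118, v119, v120] at m0
  try simp only [v0, v1, v2, v3, v5, v10, v12, v25, v26, v89, v94, v96, v111, v112, v113, v114, v116, v118, v119, v120] at m1
  try simp only [v0, v1, v2, v3, v5, v10, v12, v25, v26, v89, v94, v96, v111, v112, v113, v114, v116, v118, v119, v120]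
  (try push_cast at b m0 m1 ⊢)
  first | linear_combination b - m0 + m1 | grind

theorem core (c : Cx x1 x2) (hW : 0 ≤ v26 x1 x2) (hWQ : 0 ≤ v26 x1 x2 * v125 x1 x2) (h1 : 0 ≤ v112 x1 x2) (h2 : 0 ≤ (-v113 x1 x2)) (h3 : v112 x1 x2 + (-v113 x1 x2) ≤ Pool.Agent.StripNear.h0) :
    0 ≤ starn_v (v101 x1 x2) (v112 x1 x2) ((-v113 x1 x2)) ((-v1 x1 x2)) (v94 x1 x2) (v36 x1 x2) := by
  have hD : (-v1 x1 x2) + v94 x1 x2 - v36 x1 x2 = v26 x1 x2 * v114 x1 x2 := by
    have b := hS c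
    linear_combination b
  have k := starn_ge hW h1 h2 h3 (hE c) hD (hG c)
  have f1 : (-v113 x1 x2) = v124 x1 x2 := by
    simp only [v0, v2, v3, v25, v112, v113, v124]
    try (push_cast; ring)
  refine le_trans hWQ (le_trans (le_of_eq ?_) k)
  rw [v125]
  rw [f1]

end Pool.Agent.Strip051.LB.ChA00V1_pm_123a
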